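import Mathlib

set_option autoImplicit false
open Finset Filter Topology Polynomial

namespace Pool.Agent.Results.MP_fefe6a_co.Spread

/-- Proper colourings with `q` colours. -/
def Col {V : Type} (Γ : SimpleGraph V) (q : ℕ) : Type := {c : V → Fin q // ∀ x y, Γ.Adj x y → c x ≠ c y}

/-- `P` is the chromatic polynomial of `Γ`. -/
def IsChrom {V : Type} (Γ : SimpleGraph V) (P : ℝ[X]) : Prop :=
  ∀ q : ℕ, 0 < q → P.eval (q : ℝ) = Nat.card (Col Γ q)

/-- `P` is the orbital chromatic polynomial of `Γ` and the group `G` of automorphisms. -/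
def IsOrb {V : Type} (Γ : SimpleGraph V) (G : Subgroup (Γ ≃g Γ)) (P : ℝ[X]) : Prop :=
  ∀ q : ℕ, 0 < q → P.eval (q : ℝ) =
    Nat.card (Quot fun c c' : Col Γ q => ∃ g ∈ G, ∀ x, c'.1 x = c.1 (g x))

def co : ℕ → ℕ → ℕ → ℕ
  | 0, _, 0 => 1
  | 0, _, _ + 1 => 0
  | j + 1, s, 0 => s * co j s 0
  | j + 1, s, i + 1 => s * co j s (i + 1) + co j (s + 1) i

theorem co_pos : ∀ j s i, 0 < s → i ≤ j → 0 < co j s i
  | 0, _, 0, _, _ => Nat.one_pos
  | 0, _, _ + 1, _, h => by omega
  | j + 1, s, 0, h, _ => Nat.mul_pos h (co_pos j s 0 h (by omega))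
  | j + 1, s, i + 1, _, h => Nat.add_pos_right _ (co_pos j (s + 1) i (by omega) (by omega))

theorem co_big : ∀ j s i, j < i → co j s i = 0
  | 0, _, _ + 1, _ => rfl
  | j + 1, s, i + 1, h => by rw [co, co_big j s _ (by omega), co_big j _ _ (by omega)]; rfl

def de (y : ℝ) (i : ℕ) : ℝ := ∏ l ∈ range i, (y - l)

def R (x : ℝ) (f : ℕ → ℝ) (j s : ℕ) : ℝ := ∑ i ∈ range (j + 1), co j s i * de (x - s) i * f (s + i)

theorem R_succ (x : ℝ) (f : ℕ → ℝ) (j s : ℕ) :
    R x f (j + 1) s = s * R x f j s + (x - s) * R x f j (s + 1) := by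
  have e : R x f j s = ∑ i ∈ range (j + 1 + 1), co j s i * de (x - s) i * f (s + i) := by
    rw [sum_range_succ, co_big j s _ (by omega)]; simp [R]
  rw [e, R, sum_range_succ', sum_range_succ' _ (j + 1), R, mul_add, mul_sum, mul_sum, add_right_comm,
    ← sum_add_distrib]
  congr 1
  · refine sum_congr rfl fun i _ => ?_
    have : de (x - s) (i + 1) = (x - s) * de (x - (s + 1 : ℕ)) i := by
      rw [de, prod_range_succ', mul_comm, de]
      congr 1
      · simp
      · exact prod_congr rfl fun l _ => by push_cast; ring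
    rw [co, this, show s + 1 + i = s + (i + 1) by ring]; push_cast; ring
  · rw [co]; push_cast; ring

theorem cnt (q : ℕ) (f : ℕ → ℝ) (j : ℕ) (A : Finset (Fin q)) :
    ∑ w : Fin j → Fin q, f #(A ∪ univ.image w) = R q f j #A := by
  induction j generalizing A with
  | zero => simp [R, co, de]
  | succ j ih =>
    rw [← (Fin.consEquiv fun _ => Fin q).sum_comp, Fintype.sum_prod_type, R_succ]
    have : ∀ a : Fin q, ∑ w : Fin j → Fin q, f #(A ∪ univ.image (Fin.consEquiv (fun _ => Fin q) (a, w))) =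
        if a ∈ A then R q f j #A else R q f j (#A + 1) := by
      intro a
      have : ∀ w : Fin j → Fin q, A ∪ univ.image (Fin.consEquiv (fun _ => Fin q) (a, w)) =
          insert a A ∪ univ.image w := fun w => by
        ext y; simp [Fin.exists_fin_succ, Fin.consEquiv]; tauto
      simp only [this, ih]
      split_ifs with h
      · rw [insert_eq_of_mem h]
      · rw [card_insert_of_notMem h]
    simp only [this]
    rw [sum_ite, sum_const, sum_const, filter_mem_eq_inter, univ_inter, filter_notMem_eq_sdiff,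
      card_univ_diff, nsmul_eq_mul, nsmul_eq_mul, Nat.cast_sub (card_le_univ A), Fintype.card_fin]

abbrev V (j m : ℕ) := Bool ⊕ Bool × (Option (Fin j) ⊕ Fin m × Bool)

def adj {j m : ℕ} : V j m → V j m → Prop
  | .inl e, .inr (_, .inl none) => e = true
  | .inl _, .inr (_, .inr _) => True
  | .inr (b, .inl _), .inr (b', .inr _) => b = b'
  | _, _ => False

theorem total (j m q : ℕ) (T : Bool → Fin q × Fin q → Prop) [∀ b, DecidablePred (T b)] (φ : Bool → ℕ → ℝ)
    (h : ∀ b (U : Finset (Fin q)), (#((Uᶜ ×ˢ Uᶜ).filter (T b)) : ℝ) ^ m = φ b #U) :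
    (Nat.card {c : V j m → Fin q // (∀ x y, adj x y → c x ≠ c y) ∧
      ∀ b i, T b (c (.inr (b, .inr (i, false))), c (.inr (b, .inr (i, true))))} : ℝ) =
    q * ((q - 1) * R q (φ true) j 2 * ((q - 1) * R q (φ false) j 2)) + q * (q - 1) *
      ((R q (φ true) j 2 + (q - 2) * R q (φ true) j 3) * (R q (φ false) j 2 + (q - 2) * R q (φ false) j 3)) := by
  classical
  let U : Fin q × Fin q → Fin q × (Fin j → Fin q) → Finset (Fin q) :=
    fun a w => {a.1, a.2, w.1} ∪ univ.image w.2
  let H : Bool → Fin q × Fin q → Finset (Σ _ : Fin q × (Fin j → Fin q), Fin m → Fin q × Fin q) := fun b a =>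
    (univ.erase a.2 ×ˢ univ).sigma fun w => Fintype.piFinset fun _ => ((U a w)ᶜ ×ˢ (U a w)ᶜ).filter (T b)
  have cH : ∀ b a, (#(H b a) : ℝ) = if a.1 = a.2 then (q - 1) * R q (φ b) j 2 else
      R q (φ b) j 2 + (q - 2) * R q (φ b) j 3 := by
    rintro b ⟨a, a'⟩
    simp only [H, card_sigma, Fintype.card_piFinset_const, Nat.cast_sum, Nat.cast_pow, h, sum_product, U, cnt]
    have q1 : 1 ≤ q := a.pos
    split_ifs with e
    · subst e
      rw [sum_congr rfl (g := fun _ => R q (φ b) j 2) fun w hw => by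
        rw [insert_eq_of_mem (by simp), card_pair (ne_of_mem_erase hw).symm]]
      simp [Nat.cast_sub q1]
    · have q2 : 2 ≤ q := by have := a.2; have := a'.2; rw [Fin.ext_iff] at e; omega
      rw [← add_sum_erase _ _ (show a ∈ univ.erase a' by simpa using e),
        sum_congr rfl (g := fun _ => R q (φ b) j 3) fun w hw => by
          simp only [mem_erase] at hw
          rw [card_eq_three.mpr ⟨_, _, _, e, hw.1.symm, hw.2.1.symm, rfl⟩]]
      rw [pair_comm, insert_eq_of_mem (mem_insert_self _ _), card_pair e, sum_const,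
        card_erase_of_mem (by simpa using e), card_erase_of_mem (mem_univ _)]
      simp [Nat.sub_sub, Nat.cast_sub q2]
  rw [Nat.subtype_card (univ.filter fun c : V j m → Fin q => (∀ x y, adj x y → c x ≠ c y) ∧
      ∀ b i, T b (c (.inr (b, .inr (i, false))), c (.inr (b, .inr (i, true))))) (by simp),
    card_nbij' (t := univ.sigma fun a => Fintype.piFinset fun b => H b a)
      (fun c => ⟨(c (.inl false), c (.inl true)), fun b => ⟨(c (.inr (b, .inl none)),
        fun l => c (.inr (b, .inl (some l)))),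
        fun i => (c (.inr (b, .inr (i, false))), c (.inr (b, .inr (i, true))))⟩⟩)
      (fun z x => match x with
        | .inl false => z.1.1
        | .inl true => z.1.2
        | .inr (b, .inl none) => (z.2 b).1.1
        | .inr (b, .inl (some l)) => (z.2 b).1.2 l
        | .inr (b, .inr (i, false)) => ((z.2 b).2 i).1
        | .inr (b, .inr (i, true)) => ((z.2 b).2 i).2) ?_ ?_ ?_ fun _ _ => rfl]
  · simp only [card_sigma, Fintype.card_piFinset, Fintype.prod_bool, Nat.cast_sum, Nat.cast_mul, cH,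
      Fintype.sum_prod_type, ite_mul, mul_ite]
    rw [sum_congr rfl (g := fun _ => (q - 1) * R q (φ true) j 2 * ((q - 1) * R q (φ false) j 2) + (q - 1) *
      ((R q (φ true) j 2 + (q - 2) * R q (φ true) j 3) * (R q (φ false) j 2 + (q - 2) * R q (φ false) j 3)))
      fun a _ => ?_]
    · simp; ring
    · rw [← add_sum_erase _ _ (mem_univ a), sum_congr rfl fun b hb => by
        rw [if_neg (ne_of_mem_erase hb).symm, if_neg (ne_of_mem_erase hb).symm]]
      simp [Nat.cast_sub (show 1 ≤ q from a.pos)]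
  · intro c hc
    obtain ⟨h1, h2⟩ := (mem_filter.mp (mem_coe.mp hc)).2
    simp only [coe_sigma, Set.mem_sigma_iff, mem_coe, mem_univ, true_and, Fintype.mem_piFinset, H, mem_sigma,
      mem_product, mem_erase, and_true, mem_filter, mem_compl, U, mem_union, mem_insert, mem_singleton,
      mem_image, not_or, not_exists]
    have h1' : ∀ x y, adj y x → c x ≠ c y := fun x y a => (h1 y x a).symm
    refine fun b => ⟨by apply h1'; rfl, fun i => ⟨⟨⟨⟨?_, ?_, ?_⟩, fun l => by apply h1; rfl⟩, ⟨?_, ?_, ?_⟩,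
      fun l => by apply h1; rfl⟩, h2 b i⟩⟩ <;> apply h1' <;> trivial
  · intro z hz
    simp only [coe_sigma, Set.mem_sigma_iff, mem_coe, mem_univ, true_and, Fintype.mem_piFinset, H, mem_sigma,
      mem_product, mem_erase, and_true, mem_filter, mem_compl, U, mem_union, mem_insert, mem_singleton,
      mem_image, not_or, not_exists] at hz
    refine mem_coe.mpr (mem_filter.mpr ⟨mem_univ _, ?_, fun b i => ((hz b).2 i).2⟩)
    rintro (e | ⟨b, (_ | l) | i⟩) (e' | ⟨b', (_ | l') | ⟨i', e'⟩⟩) h <;> simp only [adj] at h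
    · subst h; exact (hz b').1.symm
    · have := (hz b').2 i'
      cases e <;> cases e' <;> grind
    · have := (hz b').2 i'
      subst h; cases e' <;> grind
    · have := (hz b').2 i'
      subst h; cases e' <;> grind
  · intro c _
    funext x
    rcases x with (_ | _) | ⟨b, (_ | l) | ⟨i, _ | _⟩⟩ <;> rfl

theorem de_neg {y : ℝ} {i : ℕ} (h : de y i < 0) : y + 1 < i := by
  by_contra c
  refine absurd h (not_lt.mpr (prod_nonneg fun l hl => ?_))
  have : (l : ℝ) + 1 ≤ i := by exact_mod_cast mem_range.mp hl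
  linarith

theorem R_pos (j s : ℕ) (hs : 0 < s) : ∀ᶠ m : ℕ in atTop, ∀ x : ℝ, s < x → 0 ≤ de (x - s) j →
    0 < R x (fun k => ((x - k) ^ 2) ^ m) j s := by
  have t := (tendsto_pow_atTop_atTop_of_one_lt (show (1 : ℝ) < 1 + 1 / (j + 1) by
    have : (0 : ℝ) < 1 / (j + 1) := by positivity
    linarith)).eventually_ge_atTop (∑ i ∈ range (j + 1), (co j s i : ℝ))
  refine t.mono fun m hm x hx hd => ?_
  obtain ⟨D, hD⟩ : ∃ D : ℕ → ℝ, D = fun i => co j s i * de (x - s) i * ((x - (s + i : ℕ)) ^ 2) ^ m := ⟨_, rfl⟩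
  have st : ∀ i < j, D i < 0 → 0 ≤ D i + D (i + 1) := by
    intro i hi h
    simp only [hD] at h ⊢
    have d : de (x - s) i < 0 := by
      by_contra c
      exact absurd h (not_lt.mpr (mul_nonneg (mul_nonneg (by positivity) (not_lt.mp c)) (by positivity)))
    have e := de_neg d
    obtain ⟨u, hu⟩ : ∃ u : ℝ, u = i - (x - s) := ⟨_, rfl⟩
    have u1 : 1 < u := by linarith
    have u2 : u ≤ j + 1 := by
      have : (i : ℝ) ≤ j := by exact_mod_cast hi.le
      linarith
    have c1 : (co j s i : ℝ) ≤ (1 + 1 / (j + 1)) ^ m :=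
      (single_le_sum (f := fun i => (co j s i : ℝ)) (fun _ _ => by positivity)
        (mem_range.mpr (by omega))).trans hm
    have c2 : (1 : ℝ) ≤ co j s (i + 1) := by exact_mod_cast co_pos j s (i + 1) hs hi
    have c3 : (1 + 1 / (j + 1 : ℝ)) ^ m * (u ^ 2) ^ m ≤ ((u + 1) ^ 2) ^ m := by
      rw [← mul_pow]
      refine pow_le_pow_left₀ (by positivity) ?_ _
      have : 1 / (j + 1 : ℝ) * u ≤ 1 := by rw [one_div, ← div_eq_inv_mul, div_le_one (by positivity)]; exact u2
      nlinarith
    rw [de, de, prod_range_succ, ← de, show (x - (s + i : ℕ)) ^ 2 = u ^ 2 by rw [hu]; push_cast; ring,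
      show (x - (s + (i + 1) : ℕ)) ^ 2 = (u + 1) ^ 2 by rw [hu]; push_cast; ring,
      show x - s - i = -u by rw [hu]; ring]
    have p1 : (0 : ℝ) ≤ (u ^ 2) ^ m := by positivity
    have p2 : (0 : ℝ) ≤ ((u + 1) ^ 2) ^ m := by positivity
    have : co j s i * (u ^ 2) ^ m ≤ co j s (i + 1) * u * ((u + 1) ^ 2) ^ m :=
      ((mul_le_mul_of_nonneg_right c1 p1).trans c3).trans (le_mul_of_one_le_left p2 (by nlinarith))
    nlinarith
  have key : ∀ i ≤ j, 0 ≤ ∑ k ∈ Ico i (j + 1), D k ∧ D i ≤ ∑ k ∈ Ico i (j + 1), D k := by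
    intro i hi
    induction hi using Nat.decreasingInduction with
    | self =>
      rw [Nat.Ico_succ_singleton, sum_singleton, hD]
      exact ⟨mul_nonneg (mul_nonneg (by positivity) hd) (by positivity), le_rfl⟩
    | of_succ i hi ih =>
      rw [sum_eq_sum_Ico_succ_bot (by omega)]
      refine ⟨?_, by linarith [ih.1]⟩
      by_cases c : D i < 0
      · linarith [st i hi c, ih.2]
      · linarith [ih.1]
  have := (key 0 (by omega)).2
  rw [← range_eq_Ico, hD] at this
  refine lt_of_lt_of_le ?_ this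
  have : (0 : ℝ) < co j s 0 := by exact_mod_cast co_pos j s 0 hs (by omega)
  have : 0 < x - s := by linarith
  simp only [de, range_zero, prod_empty, add_zero]; positivity

theorem R_lim (x a : ℝ) (f : ℕ → ℝ) (j s t : ℕ) (ha : 0 < a)
    (h : ∀ i ≤ j, if i = t then f (s + i) = a else |f (s + i)| < a) :
    Tendsto (fun m : ℕ => R x (fun k => f k ^ m) j s / a ^ m) atTop
      (𝓝 (if t ≤ j then co j s t * de (x - s) t else 0)) := by
  have : (if t ≤ j then co j s t * de (x - s) t else 0) =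
      ∑ i ∈ range (j + 1), co j s i * de (x - s) i * if i = t then 1 else 0 := by
    simp [Nat.lt_succ_iff]
  simp only [this, R, sum_div, mul_div_assoc, ← div_pow]
  refine tendsto_finset_sum _ fun i hi => Tendsto.const_mul _ ?_
  have := h i (by simpa [Nat.lt_succ_iff] using hi)
  split_ifs at this ⊢
  · rw [this, div_self ha.ne']; exact tendsto_const_nhds.congr fun n => (one_pow n).symm
  · exact tendsto_pow_atTop_nhds_zero_of_abs_lt_one (by rwa [abs_div, abs_of_pos ha, div_lt_one ha])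

noncomputable def RP (F : ℕ → ℝ[X]) (j s : ℕ) : ℝ[X] :=
  ∑ i ∈ range (j + 1), C (co j s i : ℝ) * (∏ l ∈ range i, (X - C (s : ℝ) - C (l : ℝ))) * F (s + i)

theorem RP_eval (F : ℕ → ℝ[X]) (j s : ℕ) (x : ℝ) : (RP F j s).eval x = R x (fun k => (F k).eval x) j s := by
  simp only [RP, R, de, eval_finset_sum, eval_mul, eval_C, eval_prod, eval_sub, eval_X]

def pr {j m : ℕ} : V j m → V j m
  | .inr (true, .inr (i, _)) => .inr (true, .inr (i, false))
  | x => x

def sw {j m : ℕ} (σ : Fin m → Bool) : V j m → V j m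
  | .inr (true, .inr (i, e)) => .inr (true, .inr (i, xor e (σ i)))
  | x => x

def Gp (j m : ℕ) : Subgroup (SimpleGraph.fromRel (@adj j m) ≃g SimpleGraph.fromRel (@adj j m)) where
  carrier := {g | ∀ x, pr (g x) = pr x}
  mul_mem' := fun {a b} ha hb x => (ha (b x)).trans (hb x)
  one_mem' := fun _ => rfl
  inv_mem' := fun {g} h x => (h _).symm.trans (congrArg pr (g.apply_symm_apply x))

theorem col_iff {j m q : ℕ} (c : V j m → Fin q) :
    (∀ x y, (SimpleGraph.fromRel (@adj j m)).Adj x y → c x ≠ c y) ↔ ∀ x y, adj x y → c x ≠ c y := by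
  refine ⟨fun h x y a => h x y ⟨?_, Or.inl a⟩, fun h x y a => a.2.elim (h x y) fun b => (h y x b).symm⟩
  rintro rfl
  rcases x with _ | ⟨b, (_ | l) | _⟩ <;> exact a

theorem orb (j m q : ℕ) : Nat.card (Quot fun c c' : Col (SimpleGraph.fromRel (@adj j m)) q =>
    ∃ g ∈ Gp j m, ∀ x, c'.1 x = c.1 (g x)) = Nat.card {c : V j m → Fin q // (∀ x y, adj x y → c x ≠ c y) ∧
      ∀ b i, b = true → ¬c (.inr (b, .inr (i, false))) < c (.inr (b, .inr (i, true)))} := by
  refine (Nat.card_congr (Equiv.ofBijective (fun c => Quot.mk _ ⟨c.1, (col_iff _).mpr c.2.1⟩) ⟨?_, ?_⟩)).symm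
  · let nm : (V j m → Fin q) → V j m → Fin q := fun c x => match x with
      | .inr (true, .inr (i, false)) => max (c (.inr (true, .inr (i, false)))) (c (.inr (true, .inr (i, true))))
      | .inr (true, .inr (i, true)) => min (c (.inr (true, .inr (i, false)))) (c (.inr (true, .inr (i, true))))
      | x => c x
    have h1 : ∀ c c' : Col (SimpleGraph.fromRel (@adj j m)) q,
        (∃ g ∈ Gp j m, ∀ x, c'.1 x = c.1 (g x)) → nm c.1 = nm c'.1 := by
      rintro c c' ⟨g, hg, h⟩
      have a : ∀ i e, ∃ e', g (.inr (true, .inr (i, e))) = .inr (true, .inr (i, e')) := by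
        intro i e
        have := hg (.inr (true, .inr (i, e)))
        generalize g (.inr (true, .inr (i, e))) = y at this
        rcases y with _ | ⟨_ | _, _ | ⟨i', e'⟩⟩ <;> simp [pr] at this
        exact ⟨e', by rw [this]⟩
      have b : ∀ x, (∀ i e, x ≠ .inr (true, .inr (i, e))) → g x = x := by
        intro x hx
        have := hg x
        generalize g x = y at this
        rcases x with _ | ⟨_ | _, _ | ⟨i, e⟩⟩ <;> rcases y with _ | ⟨_ | _, _ | ⟨i', e'⟩⟩ <;>
          simp_all [pr]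
      funext x
      rcases x with _ | ⟨_ | _, _ | ⟨i, e⟩⟩
      · simp only [nm]; rw [h, b _ (by simp)]
      · simp only [nm]; rw [h, b _ (by simp)]
      · simp only [nm]; rw [h, b _ (by simp)]
      · simp only [nm]; rw [h, b _ (by simp)]
      · obtain ⟨e1, a1⟩ := a i false
        obtain ⟨e2, a2⟩ := a i true
        have : e1 ≠ e2 := by
          rintro rfl
          simpa using g.injective (a1.trans a2.symm)
        cases e <;> cases e1 <;> cases e2 <;> simp_all [nm, max_comm, min_comm]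
    have h2 : ∀ c : V j m → Fin q, (∀ b i, b = true → ¬c (.inr (b, .inr (i, false))) <
        c (.inr (b, .inr (i, true)))) → nm c = c := by
      intro c h
      funext x
      rcases x with _ | ⟨_ | _, _ | ⟨i, _ | _⟩⟩ <;> simp only [nm]
      · exact max_eq_left (not_lt.mp (h _ i rfl))
      · exact min_eq_right (not_lt.mp (h _ i rfl))
    intro c c' e
    have := congrArg (Quot.lift (fun c => nm c.1) h1) e
    exact Subtype.ext ((h2 _ c.2.2).symm.trans (this.trans (h2 _ c'.2.2)))
  · rintro ⟨c⟩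
    let σ : Fin m → Bool := fun i =>
      decide (c.1 (.inr (true, .inr (i, false))) < c.1 (.inr (true, .inr (i, true))))
    have inv : Function.Involutive (@sw j m σ) := by
      rintro (_ | ⟨_ | _, _ | ⟨i, e⟩⟩) <;> simp [sw]
    have ad : ∀ x y, adj (@sw j m σ x) (sw σ y) ↔ adj x y := by
      rintro (_ | ⟨_ | _, (_ | _) | ⟨i, e⟩⟩) (_ | ⟨_ | _, (_ | _) | ⟨i', e'⟩⟩) <;> rfl
    let g : SimpleGraph.fromRel (@adj j m) ≃g SimpleGraph.fromRel (@adj j m) :=
      ⟨inv.toPerm, by
        intro x y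
        simp only [SimpleGraph.fromRel_adj, Function.Involutive.coe_toPerm, ad, ne_eq, inv.injective.eq_iff]⟩
    refine ⟨⟨c.1 ∘ sw σ, fun x y a => (col_iff _).mp c.2 _ _ ((ad x y).mpr a), ?_⟩,
      (Quot.sound ⟨g, ?_, fun _ => rfl⟩).symm⟩
    · rintro _ i rfl
      simp only [Function.comp, sw, σ]
      by_cases d : c.1 (.inr (true, .inr (i, false))) < c.1 (.inr (true, .inr (i, true)))
      · simpa [d] using d.le
      · simpa [d] using d
    · rintro (_ | ⟨_ | _, _ | ⟨i, e⟩⟩) <;> rfl

theorem result (N : ℝ) : ∃ (W : Type) (_ : Finite W) (_ : Nonempty W) (Γ : SimpleGraph W)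
    (G : Subgroup (Γ ≃g Γ)) (P O : ℝ[X]), IsChrom Γ P ∧ IsOrb Γ G O ∧
      ∃ r, O.IsRoot r ∧ ∀ x, P.IsRoot x → x + N ≤ r := by
  obtain ⟨J, hJ⟩ := exists_nat_ge N
  obtain ⟨j, hj⟩ : ∃ j, j = 4 * J + 2 := ⟨_, rfl⟩
  obtain ⟨y, hy⟩ : ∃ y : ℝ, y = 2 * J + 13 / 4 := ⟨_, rfl⟩
  have J0 : (0 : ℝ) ≤ J := J.cast_nonneg
  have bd : ∀ i ≤ j, (0 : ℝ) ≤ i ∧ (i : ℝ) ≤ 4 * J + 2 := fun i h => ⟨i.cast_nonneg, by
    rw [hj] at h; exact_mod_cast h⟩
  have a0 : 0 < (y - (3 + j : ℕ)) ^ 2 := by rw [hy, hj]; push_cast; nlinarith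
  have b0 : 0 < (y - 2) * (y - 1) / 2 := by rw [hy]; nlinarith
  have l1 := R_lim y _ (fun k => (y - k) ^ 2) j 2 (j + 1) a0 fun i hi => by
    rw [if_neg (by omega), abs_of_nonneg (by positivity), hy, hj]
    have := bd i hi
    push_cast; nlinarith
  have l2 := R_lim y _ (fun k => (y - k) ^ 2) j 3 j a0 fun i hi => by
    split_ifs with e
    · rw [e]
    · have := bd (i + 1) (by omega)
      have := bd i hi
      rw [abs_of_nonneg (by positivity), hy, hj]
      push_cast at *; nlinarith
  have l3 := R_lim y _ (fun k => (y - k) * (y - k + 1) / 2) j 2 0 b0 fun i hi => by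
    split_ifs with e
    · rw [e]; push_cast; ring
    · have := bd i hi
      have : (1 : ℝ) ≤ i := by exact_mod_cast Nat.pos_of_ne_zero e
      rw [abs_lt, hy]; push_cast
      constructor <;> nlinarith [sq_nonneg (2 * J + 7 / 4 - (i : ℝ))]
  have l4 := R_lim y _ (fun k => (y - k) * (y - k + 1) / 2) j 3 (j + 1) b0 fun i hi => by
    have := bd i hi
    rw [if_neg (by omega), abs_lt, hy]; push_cast
    constructor <;> nlinarith [sq_nonneg (2 * J + 3 / 4 - (i : ℝ))]
  rw [if_neg (by omega)] at l1 l4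
  rw [if_pos (by omega)] at l2 l3
  have l5 := (((l3.const_mul (y - 1)).mul (l1.const_mul (y - 1))).const_mul y).add
    (((l3.add (l4.const_mul (y - 2))).mul (l1.add (l2.const_mul (y - 2)))).const_mul (y * (y - 1)))
  have dn : de (y - (3 : ℕ)) j < 0 := by
    rw [de, show j = (2 * J + 1) + (2 * J + 1) by omega, prod_range_add]
    refine mul_neg_of_pos_of_neg (prod_pos fun l hl => ?_) ?_
    · have : (l : ℝ) ≤ 2 * J := by exact_mod_cast Nat.lt_succ_iff.mp (mem_range.mp hl)
      rw [hy]; push_cast; linarith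
    · rw [prod_congr rfl (g := fun l : ℕ => -1 * ((l : ℝ) + 3 / 4)) fun l _ => by rw [hy]; push_cast; ring,
        prod_mul_distrib, prod_const, card_range, Odd.neg_one_pow ⟨J, rfl⟩]
      have : 0 < ∏ l ∈ range (2 * J + 1), ((l : ℝ) + 3 / 4) := prod_pos fun l _ => by positivity
      linarith
  have l6 := l5.eventually (gt_mem_nhds (a := (0 : ℝ)) (by
    have c1 : (0 : ℝ) < co j 2 0 := by exact_mod_cast co_pos j 2 0 (by omega) (by omega)
    have c2 : (0 : ℝ) < co j 3 j := by exact_mod_cast co_pos j 3 j (by omega) (by omega)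
    have y2 : 0 < y - 2 := by linarith
    simp only [mul_zero, add_zero, zero_add, show de (y - (2 : ℕ)) 0 = 1 from rfl, mul_one]
    exact mul_neg_of_pos_of_neg (by nlinarith) (mul_neg_of_pos_of_neg c1
      (mul_neg_of_pos_of_neg y2 (mul_neg_of_pos_of_neg c2 dn)))))
  obtain ⟨m, ⟨m1, m2⟩, m3⟩ := ((l6.and (R_pos j 2 (by omega))).and (R_pos j 3 (by omega))).exists
  let F : ℕ → ℝ[X] := fun k => ((X - C (k : ℝ)) ^ 2) ^ m
  let F' : ℕ → ℝ[X] := fun k => ((X - C (k : ℝ)) * (X - C (k : ℝ) + 1) * C (1 / 2)) ^ m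
  let Q : (ℕ → ℝ[X]) → ℝ[X] := fun E => X * ((X - 1) * RP E j 2 * ((X - 1) * RP F j 2)) +
    X * (X - 1) * ((RP E j 2 + (X - C 2) * RP E j 3) * (RP F j 2 + (X - C 2) * RP F j 3))
  have eF : ∀ x : ℝ, (fun k => (F k).eval x) = fun k : ℕ => ((x - k) ^ 2) ^ m := fun x => by simp [F]
  have eF' : ∀ x : ℝ, (fun k => (F' k).eval x) = fun k : ℕ => ((x - k) * (x - k + 1) / 2) ^ m :=
    fun x => by simp [F', div_eq_mul_inv]
  have cc : ∀ (q : ℕ) (U : Finset (Fin q)), (#Uᶜ : ℝ) = q - #U := fun q U => by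
    rw [card_compl, Nat.cast_sub (card_le_univ U), Fintype.card_fin]
  have hO : IsOrb _ (Gp j m) (Q F') := fun q _ => by
    rw [orb, total j m q (fun b p => b = true → ¬p.1 < p.2)
      (fun b k => if b then ((q - k) * (q - k + 1) / 2) ^ m else ((q - k) ^ 2) ^ m)]
    · simp [Q, RP_eval, eF, eF']
    · rintro (_ | _) U
      · simp [cc, sq]
      · have a := card_filter_add_card_filter_not (s := Uᶜ ×ˢ Uᶜ) fun p => p.1 < p.2
        rw [card_product_filter_lt, card_product] at a
        have a := congrArg (Nat.cast (R := ℝ)) a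
        rw [Nat.cast_add, Nat.cast_choose_two, Nat.cast_mul, cc] at a
        simp only [forall_const, if_true]
        congr 1; linarith
  refine ⟨V j m, inferInstance, inferInstance, _, Gp j m, Q F, Q F', fun q _ => ?_, hO, ?_⟩
  · have := total j m q (fun _ _ => True) (fun _ k => ((q - k) ^ 2) ^ m) fun _ U => by simp [cc, sq]
    simp only [implies_true, and_true, ← col_iff] at this
    rw [Col, this]; simp [Q, RP_eval, eF]
  · have n1 : (Q F').eval y ≤ 0 := by
      have p : 0 < ((y - 2) * (y - 1) / 2) ^ m * ((y - (3 + j : ℕ)) ^ 2) ^ m := by positivity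
      refine (neg_of_div_neg_left ?_ p.le).le
      convert m1 using 1
      simp only [Q, RP_eval, eF, eF', eval_add, eval_mul, eval_sub, eval_X, eval_one, eval_C]
      field_simp
    have n2 : 0 ≤ (Q F').eval ((2 * J + 4 : ℕ) : ℝ) := by rw [hO _ (by omega)]; positivity
    obtain ⟨r, r1, r2⟩ := intermediate_value_Icc (show y ≤ ((2 * J + 4 : ℕ) : ℝ) by push_cast; linarith)
      (Q F').continuous.continuousOn ⟨n1, n2⟩
    refine ⟨r, r2, fun x hx => ?_⟩
    have : x ≤ 3 := by
      by_contra c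
      have c : 3 < x := not_le.mp c
      simp only [IsRoot, Q, RP_eval, eF, eval_add, eval_mul, eval_sub, eval_X, eval_one, eval_C] at hx
      have u := m2 x (by push_cast; linarith)
      have v := m3 x (by push_cast; linarith)
      generalize R x (fun k => ((x - k) ^ 2) ^ m) j 2 = A at *
      generalize R x (fun k => ((x - k) ^ 2) ^ m) j 3 = B at *
      have p1 : 0 ≤ x * ((x - 1) * A * ((x - 1) * A)) := mul_nonneg (by linarith) (mul_self_nonneg _)
      have p2 : 0 ≤ x * (x - 1) * ((A + (x - 2) * B) * (A + (x - 2) * B)) :=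
        mul_nonneg (by nlinarith) (mul_self_nonneg _)
      have A0 : A = 0 := by
        have : x * ((x - 1) * A * ((x - 1) * A)) = 0 := by linarith
        simpa [show x ≠ 0 by linarith, show x - 1 ≠ 0 by linarith] using this
      have B0 : B = 0 := by
        rw [A0] at hx
        simpa [show x ≠ 0 by linarith, show x - 1 ≠ 0 by linarith, show x - 2 ≠ 0 by linarith] using hx
      have d := not_le.mp fun h => (u h).ne' A0
      have d' := not_le.mp fun h => (v h).ne' B0
      have e := de_neg d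
      have : de (x - (2 : ℕ)) j * (x - (2 : ℕ) - j) = de (x - (3 : ℕ)) j * (x - 2) := by
        rw [de, ← prod_range_succ, prod_range_succ', de]
        congr 1
        · exact prod_congr rfl fun l _ => by push_cast; ring
        · simp
      nlinarith [mul_pos_of_neg_of_neg d (show x - (2 : ℕ) - j < 0 by linarith),
        mul_neg_of_neg_of_pos d' (show 0 < x - 2 by linarith)]
    linarith [r1.1]

end Pool.Agent.Results.MP_fefe6a_co.Spread
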